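import Mathlib

/-! The ruler sequence is, up to renaming letters, the only infinite squarefree word with initial
non-repetitive complexity at most `2n`. -/

namespace Pool.Agent.Results.MP_2232d5_co.RulerUnique

variable {α : Type*}

/-- No factor of `y` is a square. -/
def SquareFree (y : ℕ → α) : Prop := ∀ i p, 0 < p → ¬ ∀ t < p, y (i + t) = y (i + p + t)

/-- Initial non-repetitive complexity: the supremum (in `ℕ∞`) of the `m` such that the factors of
length `n` at positions `0, …, m-1` are pairwise distinct. -/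
noncomputable def nsc (y : ℕ → α) (n : ℕ) : ℕ∞ :=
  ⨆ m ∈ {m : ℕ | ∀ i j, i < j → j < m → ¬ ∀ t < n, y (i + t) = y (j + t)}, (m : ℕ∞)

/-- The ruler sequence `0102010301020104…`: the exponent of `2` in `i + 1`. -/
def ruler (i : ℕ) : ℕ := padicValNat 2 (i + 1)

/-- exponent of two -/
abbrev v (x : ℕ) : ℕ := padicValNat 2 x

lemma le_v {c x : ℕ} (hx : 0 < x) : c ≤ v x ↔ 2 ^ c ∣ x :=
  (padicValNat_dvd_iff_le (by omega)).symm

lemma v_pow (m : ℕ) : v (2 ^ m) = m := by simp [v]

lemma v_lt {m t : ℕ} (h0 : 0 < t) (h : t < 2 ^ m) : v t < m := by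
  by_contra hc
  push Not at hc
  have := Nat.le_of_dvd h0 ((le_v h0).1 hc)
  omega

lemma v_add {m a t : ℕ} (ha : 2 ^ m ∣ a) (h0 : 0 < t) (h : t < 2 ^ m) : v (a + t) = v t := by
  apply eq_of_forall_le_iff
  intro c
  rw [le_v (by omega), le_v h0]
  rcases Nat.lt_or_ge m c with hc | hc
  · have h1 : 2 ^ m ∣ 2 ^ c := pow_dvd_pow 2 hc.le
    constructor
    · intro h2
      have h3 : 2 ^ m ∣ t := (Nat.dvd_add_right ha).1 (h1.trans h2)
      have := Nat.le_of_dvd h0 h3
      omega
    · intro h2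
      have := Nat.le_of_dvd h0 (h1.trans h2)
      omega
  · exact Nat.dvd_add_right ((pow_dvd_pow 2 hc).trans ha)

lemma v_sub {m x t : ℕ} (ha : 2 ^ m ∣ x + t) (h0 : 0 < t) (h : t < 2 ^ m) (hx : 0 < x) :
    v x = v t := by
  apply eq_of_forall_le_iff
  intro c
  rw [le_v hx, le_v h0]
  rcases Nat.lt_or_ge m c with hc | hc
  · have h1 : 2 ^ m ∣ 2 ^ c := pow_dvd_pow 2 hc.le
    constructor
    · intro h2
      have h3 : 2 ^ m ∣ t := (Nat.dvd_add_right (h1.trans h2)).1 ha
      have := Nat.le_of_dvd h0 h3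
      omega
    · intro h2
      have := Nat.le_of_dvd h0 (h1.trans h2)
      omega
  · have h1 := (pow_dvd_pow 2 hc).trans ha
    constructor
    · intro h2
      exact (Nat.dvd_add_right h2).1 h1
    · intro h2
      exact (Nat.dvd_add_left h2).1 h1

lemma v_next {x : ℕ} (hx : 0 < x) : v x < v (x + 2 ^ v x) := by
  have h1 : 2 ^ v x ∣ x := (le_v hx).1 le_rfl
  have h2 : ¬ 2 ^ (v x + 1) ∣ x := by
    intro h
    have := (le_v hx).2 h
    omega
  obtain ⟨w, hw⟩ := h1
  have h3 : ¬ 2 ∣ w := by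
    rintro ⟨w', rfl⟩
    apply h2
    refine ⟨w', ?_⟩
    rw [pow_succ, mul_assoc]
    exact hw
  have h4 : 2 ∣ w + 1 := by omega
  obtain ⟨w', hw'⟩ := h4
  have h5 : 2 ^ (v x + 1) ∣ x + 2 ^ v x := by
    refine ⟨w', ?_⟩
    calc x + 2 ^ v x = 2 ^ v x * (w + 1) := by rw [mul_add, ← hw, mul_one]
      _ = 2 ^ (v x + 1) * w' := by rw [hw', pow_succ, mul_assoc]
  exact (le_v (by omega)).2 h5

lemma dvd_gap {D a b : ℕ} (ha : D ∣ a) (hb : D ∣ b) (h : a < b) : a + D ≤ b := by
  obtain ⟨u, rfl⟩ := ha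
  obtain ⟨w, rfl⟩ := hb
  have : u < w := lt_of_mul_lt_mul_left h (Nat.zero_le _)
  calc D * u + D = D * (u + 1) := by ring
    _ ≤ D * w := Nat.mul_le_mul_left _ this

/-- periodic ruler -/
def q (K z : ℕ) : ℕ := min (v (z + 1)) K

lemma q_eq {K z : ℕ} (h : z + 1 < 2 ^ (K + 1)) : q K z = v (z + 1) := by
  unfold q
  have := v_lt (by omega) h
  omega

lemma q_per {K z w : ℕ} (hw : 2 ^ K ∣ w) : q K (z + w) = q K z := by
  unfold q
  by_cases hz : 2 ^ K ∣ z + 1
  · have h1 := (le_v (by omega)).2 hz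
    have h2 : 2 ^ K ∣ z + w + 1 := by
      rw [show z + w + 1 = z + 1 + w by ring]
      exact Dvd.dvd.add hz hw
    have h3 := (le_v (by omega)).2 h2
    omega
  · have h1 : ∀ c, c ≤ K → (2 ^ c ∣ z + w + 1 ↔ 2 ^ c ∣ z + 1) := by
      intro c hc
      rw [show z + w + 1 = w + (z + 1) by ring]
      exact Nat.dvd_add_right ((pow_dvd_pow 2 hc).trans hw)
    apply eq_of_forall_le_iff
    intro c
    simp only [le_min_iff]
    constructor
    · rintro ⟨h2, h3⟩
      rw [le_v (by omega)] at h2 ⊢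
      exact ⟨(h1 c h3).1 h2, h3⟩
    · rintro ⟨h2, h3⟩
      rw [le_v (by omega)] at h2 ⊢
      exact ⟨(h1 c h3).2 h2, h3⟩

lemma q_dvd {K z d : ℕ} (h : q K z = d) : 2 ^ d ∣ z + 1 := by
  rw [← le_v (by omega)]
  unfold q at h
  omega

lemma q_le (K z : ℕ) : q K z ≤ K := min_le_right _ _

lemma q_after {K z d t : ℕ} (h : 2 ^ d ∣ z + 1) (hd : d ≤ K) (h0 : 0 < t) (ht : t < 2 ^ d) :
    q K (z + t) = v t := by
  unfold q
  rw [show z + t + 1 = z + 1 + t by ring, v_add h h0 ht]
  have := v_lt h0 ht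
  omega

section step

variable {y : ℕ → α} {L : ℕ → α} {K : ℕ}

/-- stage predicate -/
def Stage (y : ℕ → α) (L : ℕ → α) (K n : ℕ) : Prop :=
  ∃ i j, 2 * 2 ^ K ≤ j ∧ j ≤ 2 * n ∧ i + n + 1 ≤ 2 * 2 ^ K ∧
    ∀ t, t + 2 * 2 ^ K < j + n → y (2 * 2 ^ K + t) = L (q K (i + 2 * (2 * 2 ^ K) - j + t))

lemma far (hsq : SquareFree y) {i j n : ℕ} (hij : i < j) (h : ∀ t < n, y (i + t) = y (j + t)) :
    i + n + 1 ≤ j := by
  by_contra hc
  apply hsq i (j - i) (by omega)
  intro t ht
  rw [h t (by omega)]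
  congr 1
  omega

lemma beyond (hsq : SquareFree y) (hN : ∀ s < 2 * 2 ^ K, y s = L (v (s + 1)))
    (hL : ∀ a b, a ≤ K + 1 → b ≤ K + 1 → L a = L b → a = b) {i j n : ℕ}
    (hn : 2 ^ K ≤ n) (hij : i < j) (h : ∀ t < n, y (i + t) = y (j + t)) :
    2 * 2 ^ K ≤ j := by
  by_contra hc
  have h1 := far hsq hij h
  have h2 := h (2 * 2 ^ K - 1 - j) (by omega)
  rw [show j + (2 * 2 ^ K - 1 - j) = 2 * 2 ^ K - 1 by omega, hN _ (by omega),
    hN _ (by omega)] at h2
  have h3 : v (2 * 2 ^ K - 1 + 1) = K + 1 := by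
    rw [show 2 * 2 ^ K - 1 + 1 = 2 ^ (K + 1) by rw [pow_succ]; omega]
    exact v_pow _
  have h4 : v (i + (2 * 2 ^ K - 1 - j) + 1) < K + 1 := by
    apply v_lt (by omega)
    rw [pow_succ]
    omega
  have h5 := hL _ _ h4.le h3.le h2
  omega

lemma stage_base (hsq : SquareFree y)
    (hrep : ∀ n, 1 ≤ n → ∃ i j, i < j ∧ j ≤ 2 * n ∧ ∀ t < n, y (i + t) = y (j + t))
    (hN : ∀ s < 2 * 2 ^ K, y s = L (v (s + 1)))
    (hL : ∀ a b, a ≤ K + 1 → b ≤ K + 1 → L a = L b → a = b) : Stage y L K (2 ^ K) := by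
  have hpos : 0 < 2 ^ K := by positivity
  obtain ⟨i, j, hij, hj, h⟩ := hrep (2 ^ K) hpos
  have h1 := far hsq hij h
  have h2 := beyond hsq hN hL le_rfl hij h
  have h3 : j = 2 * 2 ^ K := by omega
  subst h3
  refine ⟨i, 2 * 2 ^ K, le_rfl, le_rfl, by omega, fun t ht => ?_⟩
  rw [← h t (by omega), hN _ (by omega)]
  congr 1
  rw [show i + 2 * (2 * 2 ^ K) - 2 * 2 ^ K + t = i + t + 2 * 2 ^ K by omega,
    q_per (Dvd.intro_left 2 rfl), q_eq (by rw [pow_succ]; omega)]

/-- left extension -/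
lemma left_ext (y : ℕ → α) (g : ℕ → α) (i m : ℕ) :
    ∃ e, e ≤ i ∧ e ≤ m ∧ (∀ s < e, y (m - 1 - s) = g (i - 1 - s)) ∧
      (e = m ∨ (e < m ∧ e = i) ∨ (e < m ∧ e < i ∧ y (m - 1 - e) ≠ g (i - 1 - e))) := by
  by_cases hall : ∀ s, s < i → s < m → y (m - 1 - s) = g (i - 1 - s)
  · rcases Nat.lt_or_ge i m with h | h
    · exact ⟨i, le_rfl, h.le, fun s hs => hall s hs (by omega), Or.inr (Or.inl ⟨h, rfl⟩)⟩
    · exact ⟨m, h, le_rfl, fun s hs => hall s (by omega) hs, Or.inl rfl⟩
  · classical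
    push Not at hall
    have hex : ∃ s, s < i ∧ s < m ∧ y (m - 1 - s) ≠ g (i - 1 - s) := hall
    obtain ⟨h1, h2, h3⟩ := Nat.find_spec hex
    refine ⟨Nat.find hex, h1.le, h2.le, fun s hs => ?_, Or.inr (Or.inr ⟨h2, h1, h3⟩)⟩
    by_contra hc
    exact Nat.find_min hex hs ⟨by omega, by omega, hc⟩

/-- the square `(d Z_d)(d Z_d)` -/
lemma sq_small (hsq : SquareFree y) {δ d : ℕ} (h0 : y δ = L d)
    (h1 : ∀ t, 0 < t → t < 2 * 2 ^ d → y (δ + t) = L (v t)) : False := by
  have hpos : 0 < 2 ^ d := by positivity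
  apply hsq δ (2 ^ d) hpos
  intro t ht
  rcases Nat.eq_zero_or_pos t with rfl | htp
  · rw [Nat.add_zero, Nat.add_zero, h0, h1 _ hpos (by omega), v_pow]
  · rw [h1 t htp (by omega), show δ + 2 ^ d + t = δ + (2 ^ d + t) by ring,
      h1 _ (by omega) (by omega), v_add (dvd_refl _) htp ht]

lemma stage_step (hsq : SquareFree y)
    (hrep : ∀ n, 1 ≤ n → ∃ i j, i < j ∧ j ≤ 2 * n ∧ ∀ t < n, y (i + t) = y (j + t))
    (hN : ∀ s < 2 * 2 ^ K, y s = L (v (s + 1)))
    (hL : ∀ a b, a ≤ K + 1 → b ≤ K + 1 → L a = L b → a = b) {n : ℕ} (hn : 2 ^ K + 1 ≤ n)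
    (hn2 : n + 1 ≤ 2 * 2 ^ K) (hst : Stage y L K (n - 1)) : Stage y L K n := by
  obtain ⟨i', j', hj'1, hj'2, hi', hR⟩ := hst
  obtain ⟨i, j, hij, hj, hw⟩ := hrep n (by omega)
  have hfar := far hsq hij hw
  have hjN := beyond hsq hN hL (by omega : 2 ^ K ≤ n) hij hw
  set H := 2 ^ K with hH
  have hHpos : 0 < H := by positivity
  have hK1 : 2 ^ (K + 1) = 2 * H := by rw [pow_succ]; ring
  -- length of the part of the window inside `Z_k`
  obtain ⟨a, ha1, ha2, ha3⟩ : ∃ a, a ≤ n ∧ i + a + 1 ≤ 2 * H ∧ (a = n ∨ (a < n ∧ i + a + 1 = 2 * H)) := by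
    rcases Nat.lt_or_ge (i + n) (2 * H) with h | h
    · exact ⟨n, le_rfl, by omega, Or.inl rfl⟩
    · exact ⟨2 * H - 1 - i, by omega, by omega, Or.inr ⟨by omega, by omega⟩⟩
  have hwin : ∀ s < a, y (j + s) = L (v (i + s + 1)) := by
    intro s hs
    rw [← hw s (by omega), hN _ (by omega)]
  have hkpos : a < n → y (j + a) = L (K + 1) := by
    intro h
    rw [← hw a h, hN _ (by omega)]
    congr 1
    have : i + a + 1 = 2 ^ (K + 1) := by omega
    rw [this, v_pow]
  -- left extension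
  obtain ⟨e, he1, he2, he3, he4⟩ := left_ext (fun t => y (2 * H + t)) (fun s => L (v (s + 1)))
    i (j - 2 * H)
  set i0 := i - e with hi0
  set j0 := j - e with hj0
  set A := a + e with hA
  have hB : ∀ s < A, y (j0 + s) = L (v (i0 + s + 1)) := by
    intro s hs
    rcases Nat.lt_or_ge s e with h | h
    · have h1 := he3 (e - 1 - s) (by omega)
      rw [show 2 * H + (j - 2 * H - 1 - (e - 1 - s)) = j0 + s by omega] at h1
      rw [h1]
      congr 2
      omega
    · rw [show j0 + s = j + (s - e) by omega, hwin _ (by omega)]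
      congr 2
      omega
  have hi0A : i0 + A + 1 ≤ 2 * H := by omega
  have hkA : a < n → y (j0 + A) = L (K + 1) := by
    intro h
    rw [show j0 + A = j + a by omega]
    exact hkpos h
  rcases he4 with hc1 | ⟨hc1, hc2⟩ | ⟨hc1, hc2, hc3⟩
  · -- case 1: the extension reaches the beginning of the region
    have hj0N : j0 = 2 * H := by omega
    rcases ha3 with h | ⟨h, h'⟩
    · refine ⟨i, j, hjN, hj, by omega, fun t ht => ?_⟩
      have h1 := hB t (by omega)
      rw [hj0N] at h1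
      rw [h1]
      congr 1
      rw [show i + 2 * (2 * H) - j + t = i0 + t + 2 * H by omega,
        q_per (Dvd.intro_left 2 rfl), q_eq (by omega)]
    · exfalso
      apply hsq i0 (A + 1) (by omega)
      intro t ht
      rw [show i0 + (A + 1) + t = j0 + t by omega, hN _ (by omega)]
      rcases Nat.lt_or_ge t A with h2 | h2
      · rw [hB t h2]
      · have h3 : t = A := by omega
        subst h3
        rw [hkA h]
        congr 1
        rw [show i0 + A + 1 = 2 ^ (K + 1) by omega, v_pow]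
  · -- case 2: the extension reaches the beginning of `Z_k`
    have hi00 : i0 = 0 := by omega
    -- the letter before
    have hd := hR (j0 - 1 - 2 * H) (by omega)
    rw [show 2 * H + (j0 - 1 - 2 * H) = j0 - 1 by omega] at hd
    set z := i' + 2 * (2 * H) - j' + (j0 - 1 - 2 * H) with hz
    by_cases hdK : 2 * 2 ^ q K z ≤ A + 1
    · exfalso
      apply sq_small hsq hd
      intro t ht0 ht
      rw [show j0 - 1 + t = j0 + (t - 1) by omega, hB _ (by omega)]
      congr 2
      omega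
    · have hAH : H ≤ A := by omega
      have hqK : q K z = K := by
        by_contra hne
        have h1 : q K z + 1 ≤ K := by
          have := q_le K z
          omega
        have h2 : 2 ^ (q K z + 1) ≤ 2 ^ K := Nat.pow_le_pow_right (by norm_num) h1
        rw [pow_succ] at h2
        omega
      rw [hqK, ← hH] at hdK
      rcases ha3 with h | ⟨h, h'⟩
      swap
      · omega
      have hzd := q_dvd hqK
      rw [← hH] at hzd
      refine ⟨i, j, hjN, hj, by omega, fun t ht => ?_⟩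
      rcases Nat.lt_or_ge (2 * H + t) j0 with h2 | h2
      · rw [hR t (by omega)]
        congr 1
        -- phases agree modulo `H`
        have h3 : z + 1 = i' + 2 * (2 * H) - j' + (j0 - 2 * H) := by omega
        have h4 : i + 2 * (2 * H) - j + t + (z + 1) = (i' + 2 * (2 * H) - j' + t) + 2 * H := by
          omega
        have h5 : q K (i + 2 * (2 * H) - j + t + (z + 1)) = q K (i + 2 * (2 * H) - j + t) :=
          q_per hzd
        rw [← h5, h4, q_per (Dvd.intro_left 2 rfl)]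
      · have h3 := hB (2 * H + t - j0) (by omega)
        rw [show j0 + (2 * H + t - j0) = 2 * H + t by omega, hi00] at h3
        rw [h3]
        congr 1
        rw [show i + 2 * (2 * H) - j + t = (2 * H + t - j0) + 2 * H by omega,
          q_per (Dvd.intro_left 2 rfl), q_eq (by omega)]
        congr 1
        omega
  · -- case 3: a genuine mismatch
    exfalso
    have hc3' : y (j0 - 1) ≠ L (v i0) := by
      have h1 : 2 * H + (j - 2 * H - 1 - e) = j0 - 1 := by omega
      have h2 : i - 1 - e + 1 = i0 := by omega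
      rw [h1, h2] at hc3
      exact hc3
    have hi0pos : 0 < i0 := by omega
    set c := v i0 with hc
    have hcK : c ≤ K := by
      have := v_lt hi0pos (show i0 < 2 ^ (K + 1) by omega)
      omega
    have hci0 : 2 ^ c ∣ i0 := (le_v hi0pos).1 le_rfl
    have hcH : 2 ^ c ∣ H := pow_dvd_pow 2 hcK
    have hcHle : 2 ^ c ≤ H := Nat.le_of_dvd hHpos hcH
    have hcpos : 0 < 2 ^ c := by positivity
    have hd := hR (j0 - 1 - 2 * H) (by omega)
    rw [show 2 * H + (j0 - 1 - 2 * H) = j0 - 1 by omega] at hd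
    set z := i' + 2 * (2 * H) - j' + (j0 - 1 - 2 * H) with hz
    set d := q K z with hdd
    have hdK : d ≤ K := q_le K z
    have hzd : 2 ^ d ∣ z + 1 := q_dvd rfl
    have hdc : d ≠ c := by
      intro h
      exact hc3' (by rw [hd, h])
    have hAc : 2 ^ c ≤ A + 1 := by
      rcases ha3 with h | ⟨h, h'⟩
      · omega
      · have := dvd_gap hci0 (show 2 ^ c ∣ 2 * H from Dvd.dvd.mul_left hcH 2) (by omega)
        omega
    have hd_gt : c < d := by
      by_contra hle
      have hlt : d < c := by omega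
      have h2 : 2 ^ (d + 1) ≤ 2 ^ c := Nat.pow_le_pow_right (by norm_num) hlt
      rw [pow_succ] at h2
      apply sq_small hsq hd
      intro t ht0 ht
      rw [show j0 - 1 + t = j0 + (t - 1) by omega, hB _ (by omega)]
      congr 1
      rw [show i0 + (t - 1) + 1 = i0 + t by omega]
      exact v_add hci0 ht0 (by omega)
    have hpow : 2 ^ (c + 1) ≤ 2 ^ d := Nat.pow_le_pow_right (by norm_num) hd_gt
    rw [pow_succ] at hpow
    have hnext := v_next hi0pos
    rw [← hc] at hnext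
    -- the region ends soon after `d`
    have hstar : j' + (n - 1) ≤ j0 - 1 + 2 ^ c := by
      by_contra hcon
      have h1 := hR (j0 - 1 - 2 * H + 2 ^ c) (by omega)
      rw [show 2 * H + (j0 - 1 - 2 * H + 2 ^ c) = j0 + (2 ^ c - 1) by omega,
        show i' + 2 * (2 * H) - j' + (j0 - 1 - 2 * H + 2 ^ c) = z + 2 ^ c by omega,
        q_after hzd hdK hcpos (by omega), v_pow] at h1
      rcases Nat.lt_or_ge (2 ^ c - 1) A with h2 | h2
      · rw [hB _ h2, show i0 + (2 ^ c - 1) + 1 = i0 + 2 ^ c by omega] at h1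
        have h3 : v (i0 + 2 ^ c) < K + 1 := v_lt (by omega) (by omega)
        have := hL _ _ h3.le (by omega) h1
        omega
      · rcases ha3 with h | ⟨h, h'⟩
        · omega
        · rw [show 2 ^ c - 1 = A by omega, hkA h] at h1
          have := hL _ _ le_rfl (by omega) h1
          omega
    -- arithmetic: everything is tight
    have hz2 : z + 1 + 2 ^ d ≤ 2 * (2 * H) := by
      apply dvd_gap hzd
      · have : 2 ^ d ∣ H := pow_dvd_pow 2 hdK
        exact Dvd.dvd.mul_left (Dvd.dvd.mul_left this 2) 2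
      · omega
    have t1 : j' = 2 * H := by omega
    have t2 : i' = 0 := by omega
    have t3 : e = 0 := by omega
    have t4 : j = 2 * n := by omega
    have t5 : n + 2 ^ c = 2 * H := by omega
    have hj0j : j0 = j := by omega
    have hi0i : i0 = i := by omega
    have hAa : A = a := by omega
    have haL : 2 ^ c ≤ a := by
      rcases ha3 with h | ⟨h, h'⟩
      · omega
      · omega
    set m := v (i0 + 2 ^ c) with hm
    have hmK : m ≤ K := by
      have := v_lt (show 0 < i0 + 2 ^ c by omega) (show i0 + 2 ^ c < 2 ^ (K + 1) by omega)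
      omega
    have hmH : 2 ^ m ∣ H := pow_dvd_pow 2 hmK
    have hmHle : 2 ^ m ≤ H := Nat.le_of_dvd hHpos hmH
    have hmi : 2 ^ m ∣ i0 + 2 ^ c := (le_v (by omega)).1 le_rfl
    have hmc : 2 ^ (c + 1) ≤ 2 ^ m := Nat.pow_le_pow_right (by norm_num) hnext
    rw [pow_succ] at hmc
    have haM : 2 ^ m ≤ a + 1 := by
      rcases ha3 with h | ⟨h, h'⟩
      · omega
      · have := dvd_gap hmi (show 2 ^ m ∣ 2 * H from Dvd.dvd.mul_left hmH 2) (by omega)
        omega
    -- the final square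
    apply hsq (2 * (2 * H) - 2 ^ m - 1) (2 ^ m - 2 ^ c) (by omega)
    intro t ht
    have hRt : y (2 * (2 * H) - 2 ^ m - 1 + t) = L (v (2 * H - 2 ^ m + t)) := by
      have h1 := hR (2 * H - 2 ^ m - 1 + t) (by omega)
      rw [show 2 * H + (2 * H - 2 ^ m - 1 + t) = 2 * (2 * H) - 2 ^ m - 1 + t by omega,
        show i' + 2 * (2 * H) - j' + (2 * H - 2 ^ m - 1 + t)
          = (2 * H - 2 ^ m - 1 + t) + 2 * H by omega, q_per (Dvd.intro_left 2 rfl),
        q_eq (by omega), show 2 * H - 2 ^ m - 1 + t + 1 = 2 * H - 2 ^ m + t by omega] at h1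
      exact h1
    have hBt : y (2 * (2 * H) - 2 ^ m - 1 + (2 ^ m - 2 ^ c) + t)
        = L (v (i0 + 2 ^ c + t)) := by
      have h1 := hB (2 ^ c - 1 + t) (by omega)
      rw [show j0 + (2 ^ c - 1 + t) = 2 * (2 * H) - 2 ^ m - 1 + (2 ^ m - 2 ^ c) + t by omega,
        show i0 + (2 ^ c - 1 + t) + 1 = i0 + 2 ^ c + t by omega] at h1
      exact h1
    rw [hRt, hBt]
    congr 1
    have hmz : 2 ^ m ∣ 2 * H - 2 ^ m :=
      Nat.dvd_sub (Dvd.dvd.mul_left hmH 2) (dvd_refl _)
    rcases Nat.eq_zero_or_pos t with rfl | htp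
    · rw [Nat.add_zero, Nat.add_zero, ← hm]
      rw [v_sub (m := K + 1) (t := 2 ^ m) (x := 2 * H - 2 ^ m), v_pow]
      · rw [hK1, Nat.sub_add_cancel (by omega)]
      · positivity
      · omega
      · omega
    · rw [v_add hmz htp (by omega), v_add hmi htp (by omega)]

/-- The induction step for the prefix. -/
lemma prefix_step (hsq : SquareFree y)
    (hrep : ∀ n, 1 ≤ n → ∃ i j, i < j ∧ j ≤ 2 * n ∧ ∀ t < n, y (i + t) = y (j + t))
    (hN : ∀ s < 2 * 2 ^ K, y s = L (v (s + 1)))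
    (hL : ∀ a b, a ≤ K + 1 → b ≤ K + 1 → L a = L b → a = b) :
    ∀ t, t + 1 < 2 * 2 ^ K → y (2 * 2 ^ K + t) = L (v (t + 1)) := by
  have hpos : 0 < 2 ^ K := by positivity
  have hall : ∀ m, 2 ^ K + m + 1 ≤ 2 * 2 ^ K → Stage y L K (2 ^ K + m) := by
    intro m
    induction m with
    | zero => intro _; exact stage_base hsq hrep hN hL
    | succ m ih =>
      intro hm
      apply stage_step hsq hrep hN hL (by omega) (by omega)
      rw [show 2 ^ K + (m + 1) - 1 = 2 ^ K + m by omega]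
      exact ih (by omega)
  obtain ⟨i, j, h1, h2, h3, h4⟩ := hall (2 ^ K - 1) (by omega)
  have hi : i = 0 := by omega
  subst hi
  have hj : j = 2 * 2 ^ K := by
    by_contra hne
    apply hsq (2 * 2 ^ K) (2 ^ K) hpos
    intro t ht
    rw [h4 t (by omega), show 2 * 2 ^ K + 2 ^ K + t = 2 * 2 ^ K + (2 ^ K + t) by ring,
      h4 (2 ^ K + t) (by omega),
      show 0 + 2 * (2 * 2 ^ K) - j + (2 ^ K + t) = 0 + 2 * (2 * 2 ^ K) - j + t + 2 ^ K by ring,
      q_per (dvd_refl _)]
  subst hj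
  intro t ht
  rw [h4 t (by omega), show 0 + 2 * (2 * 2 ^ K) - 2 * 2 ^ K + t = t + 2 * 2 ^ K by omega,
    q_per (Dvd.intro_left 2 rfl), q_eq (by rw [pow_succ]; omega)]

end step

lemma rep_of_nsc {y : ℕ → α} (h : ∀ n : ℕ, 1 ≤ n → nsc y n ≤ 2 * n) (n : ℕ) (hn : 1 ≤ n) :
    ∃ i j, i < j ∧ j ≤ 2 * n ∧ ∀ t < n, y (i + t) = y (j + t) := by
  by_contra hc
  push Not at hc
  have h1 := h n hn
  unfold nsc at h1
  rw [iSup₂_le_iff] at h1
  have h2 := h1 (2 * n + 1) (by
    intro i j hij hj hall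
    obtain ⟨t, ht, ht2⟩ := hc i j hij (by omega)
    exact ht2 (hall t ht))
  have h3 : 2 * n + 1 ≤ 2 * n := by exact_mod_cast h2
  omega

/-- the full structure -/
theorem structure_thm {y : ℕ → α} (hsq : SquareFree y)
    (hrep : ∀ n, 1 ≤ n → ∃ i j, i < j ∧ j ≤ 2 * n ∧ ∀ t < n, y (i + t) = y (j + t)) (K : ℕ) :
    (∀ s < 2 ^ K, y s = y (2 ^ v (s + 1) - 1)) ∧
    (∀ a b, a ≤ K → b ≤ K → y (2 ^ a - 1) = y (2 ^ b - 1) → a = b) := by
  induction K with
  | zero =>
    constructor
    · intro s hs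
      have : s = 0 := by omega
      subst this
      simp [v]
    · intro a b ha hb _
      omega
  | succ K ih =>
    obtain ⟨ih1, ih2⟩ := ih
    set L : ℕ → α := fun m => y (2 ^ m - 1) with hLdef
    have hpos : 0 < 2 ^ K := by positivity
    have hK1 : 2 ^ (K + 1) = 2 * 2 ^ K := by rw [pow_succ]; ring
    -- values on `[0, 2^(K+1) - 1)`
    have hval : ∀ s, s + 1 < 2 * 2 ^ K → y s = L (v (s + 1)) := by
      rcases Nat.eq_zero_or_pos K with hK0 | hKpos
      · subst hK0
        intro s hs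
        have : s = 0 := by omega
        subst this
        simp [hLdef, v]
      · obtain ⟨K', rfl⟩ : ∃ K', K = K' + 1 := ⟨K - 1, by omega⟩
        have hK2 : 2 ^ (K' + 1) = 2 * 2 ^ K' := by rw [pow_succ]; ring
        have hstep := prefix_step (K := K') (L := L) hsq hrep
          (fun s hs => ih1 s (by omega)) (fun a b ha hb hab => ih2 a b ha hb hab)
        intro s hs
        rcases Nat.lt_or_ge s (2 ^ (K' + 1)) with h | h
        · exact ih1 s h
        · have h1 := hstep (s - 2 * 2 ^ K') (by omega)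
          rw [show 2 * 2 ^ K' + (s - 2 * 2 ^ K') = s by omega] at h1
          rw [h1]
          congr 1
          rw [show s + 1 = 2 ^ (K' + 1) + (s - 2 * 2 ^ K' + 1) by omega,
            v_add (dvd_refl _) (by omega) (by omega)]
    -- the last letter is new
    have hnew : ∀ m ≤ K, y (2 * 2 ^ K - 1) ≠ L m := by
      intro m hm heq
      have hmpos : 0 < 2 ^ m := by positivity
      have hmK : 2 ^ m ∣ 2 ^ K := pow_dvd_pow 2 hm
      have hmle : 2 ^ m ≤ 2 ^ K := Nat.le_of_dvd hpos hmK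
      apply hsq (2 * 2 ^ K - 2 * 2 ^ m) (2 ^ m) hmpos
      have hd1 : 2 ^ m ∣ 2 * 2 ^ K - 2 * 2 ^ m :=
        Nat.dvd_sub (Dvd.dvd.mul_left hmK 2) (Dvd.intro_left 2 rfl)
      have hd2 : 2 ^ m ∣ 2 * 2 ^ K - 2 ^ m :=
        Nat.dvd_sub (Dvd.dvd.mul_left hmK 2) (dvd_refl _)
      intro t ht
      rw [show 2 * 2 ^ K - 2 * 2 ^ m + 2 ^ m + t = 2 * 2 ^ K - 2 ^ m + t by omega]
      rcases Nat.lt_or_ge (t + 1) (2 ^ m) with h | h
      · rw [hval _ (by omega), hval _ (by omega)]
        rw [show 2 * 2 ^ K - 2 * 2 ^ m + t + 1 = 2 * 2 ^ K - 2 * 2 ^ m + (t + 1) by ring,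
          show 2 * 2 ^ K - 2 ^ m + t + 1 = 2 * 2 ^ K - 2 ^ m + (t + 1) by ring,
          v_add hd1 (by omega) h, v_add hd2 (by omega) h]
      · have ht' : t = 2 ^ m - 1 := by omega
        rw [show 2 * 2 ^ K - 2 ^ m + t = 2 * 2 ^ K - 1 by omega, heq, hval _ (by omega)]
        congr 1
        rw [show 2 * 2 ^ K - 2 * 2 ^ m + t + 1 = 2 * 2 ^ K - 2 ^ m by omega]
        rcases Nat.eq_or_lt_of_le hm with rfl | hlt
        · rw [show 2 * 2 ^ m - 2 ^ m = 2 ^ m by omega, v_pow]
        · rw [v_sub (m := K + 1) (t := 2 ^ m), v_pow]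
          · rw [Nat.sub_add_cancel (by omega), hK1]
          · positivity
          · exact Nat.pow_lt_pow_right (by norm_num) (by omega)
          · omega
    constructor
    · intro s hs
      rcases Nat.lt_or_ge (s + 1) (2 * 2 ^ K) with h | h
      · exact hval s h
      · have : s + 1 = 2 ^ (K + 1) := by omega
        rw [this, v_pow]
        congr 1
        omega
    · have hnew' : ∀ m ≤ K, y (2 ^ (K + 1) - 1) ≠ y (2 ^ m - 1) := by
        intro m hm
        rw [hK1]
        exact hnew m hm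
      intro a b ha hb hab
      rcases Nat.lt_or_ge a (K + 1) with h1 | h1
      · rcases Nat.lt_or_ge b (K + 1) with h2 | h2
        · exact ih2 a b (by omega) (by omega) hab
        · have : b = K + 1 := by omega
          subst this
          exact absurd hab.symm (hnew' a (by omega))
      · have : a = K + 1 := by omega
        subst this
        rcases Nat.lt_or_ge b (K + 1) with h2 | h2
        · exact absurd hab (hnew' b (by omega))
        · omega

/-- Q1: an infinite squarefree word with `nsc(n) ≤ 2n` for all `n ≥ 1` is obtained from the ruler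
sequence by an injective renaming of the letters, which is a bijection of the alphabet as soon as
every letter of the alphabet occurs in the word. -/
theorem result (y : ℕ → ℕ) (hsq : SquareFree y) (hnsc : ∀ n : ℕ, 1 ≤ n → nsc y n ≤ 2 * n) :
    ∃ σ : ℕ → ℕ, Function.Injective σ ∧ (∀ i, y i = σ (ruler i)) ∧
      (Function.Surjective y → Function.Bijective σ) := by
  have h := structure_thm hsq (rep_of_nsc hnsc)
  have hinj : Function.Injective fun m => y (2 ^ m - 1) := by
    intro a b hab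
    exact (h (max a b)).2 a b (le_max_left _ _) (le_max_right _ _) hab
  have hy : ∀ i, y i = (fun m => y (2 ^ m - 1)) (ruler i) := by
    intro i
    exact (h (i + 1)).1 i (by
      have := Nat.lt_two_pow_self (n := i + 1)
      omega)
  refine ⟨fun m => y (2 ^ m - 1), hinj, hy, fun hs => ⟨hinj, fun b => ?_⟩⟩
  obtain ⟨i, hi⟩ := hs b
  exact ⟨ruler i, by rw [← hy i, hi]⟩

end Pool.Agent.Results.MP_2232d5_co.RulerUnique
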